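import Mathlib

namespace Pool.Agent.H.MP_66fdf3_co
open Function

/-- `M` is a latin square on `G` that is near-orthogonal to the Cayley table of `G`. -/
def NOM {G : Type} [Group G] (M : G → G → G) : Prop :=
  (∀ g, Bijective (M g)) ∧ (∀ h, Bijective fun g => M g h) ∧
  (∃ r₁ r₂ c₁ c₂ : G, r₁ ≠ r₂ ∧ c₁ ≠ c₂ ∧ r₁ * c₁ = r₂ * c₂ ∧ r₁ * c₂ = r₂ * c₁ ∧
    M r₁ c₁ = M r₂ c₂ ∧ M r₁ c₂ = M r₂ c₁ ∧
    ({M r₁ c₁, M r₁ c₂} : Set G) = {r₁ * c₁, r₁ * c₂}) ∧
  (Set.range fun p : G × G => (p.1 * p.2, M p.1 p.2)).ncard + 2 = Nat.card G ^ 2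

/-- `G` has a complete mapping. -/
def CM (G : Type) [Group G] : Prop := ∃ f : G → G, Bijective f ∧ Bijective fun x => x * f x

theorem nec {G : Type} [Group G] [Finite G] (h3 : 2 < Nat.card G) {M : G → G → G} (h : NOM M) :
    Even (Nat.card (commutator G)) := by
  classical
  have := Fintype.ofFinite G
  obtain ⟨hr, hc, ⟨r₁, r₂, c₁, c₂, n1, n2, e1, e2, e3, e4, -⟩, hn⟩ := h
  set Φ : G × G → G × G := fun p => (p.1 * p.2, M p.1 p.2) with hΦ
  have inj : Set.InjOn Φ ({(r₂, c₂), (r₂, c₁)}ᶜ : Set (G × G)) := by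
    refine Set.injOn_of_ncard_image_eq ?_
    have a1 := Set.ncard_add_ncard_compl ({(r₂, c₂), (r₂, c₁)} : Set (G × G))
    rw [Set.ncard_pair (by simp [n2.symm]), Nat.card_prod, ← sq] at a1
    have : Φ '' ({(r₂, c₂), (r₂, c₁)}ᶜ : Set (G × G)) = Set.range Φ := by
      refine (Set.image_subset_range _ _).antisymm ?_
      rintro _ ⟨p, rfl⟩
      by_cases b1 : p = (r₂, c₂)
      · exact ⟨(r₁, c₁), by simp [n1], by simp [b1, hΦ, e1, e3]⟩
      by_cases b2 : p = (r₂, c₁)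
      · exact ⟨(r₁, c₂), by simp [n1], by simp [b2, hΦ, e2, e4]⟩
      exact ⟨p, by simp [b1, b2], rfl⟩
    rw [this]; omega
  -- the diagonals of `M`
  have dg : ∀ w, ∃ σ : G → G, Bijective σ ∧ ∀ g, M g (σ g) = w := fun w => by
    choose σ hσ using fun g => (hr g).2 w
    exact ⟨σ, Finite.injective_iff_bijective.1 fun g g' e =>
      (hc (σ g)).1 (by show M g (σ g) = M g' (σ g); rw [hσ, e, hσ]), hσ⟩
  have pr : ∀ σ : G → G, Bijective σ → ∏ g, Abelianization.of (σ g) = ∏ g : G, Abelianization.of g :=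
    fun σ hσ => hσ.prod_comp fun g => Abelianization.of g
  have pr2 : ∀ σ : G → G, Bijective σ → ∏ g, Abelianization.of (g * σ g) =
      (∏ g : G, Abelianization.of g) * ∏ g : G, Abelianization.of g := fun σ hσ => by
    simp only [map_mul, Finset.prod_mul_distrib, pr σ hσ]
  have uv : M r₂ c₂ ≠ M r₂ c₁ := fun e => n2 ((hr r₂).1 e).symm
  have P1 : ∏ g : G, Abelianization.of g = 1 := by
    obtain ⟨w, hw⟩ : ∃ w, w ∉ ({M r₂ c₂, M r₂ c₁} : Set G) := by
      by_contra hh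
      push Not at hh
      have := Set.ncard_le_ncard (s := Set.univ) fun x _ => hh x
      rw [Set.ncard_univ, Set.ncard_pair uv] at this; omega
    obtain ⟨σ, h1, h2⟩ := dg w
    have m : ∀ g, (g, σ g) ∈ ({(r₂, c₂), (r₂, c₁)}ᶜ : Set (G × G)) := fun g hg => hw (by
      have := h2 g
      rcases hg with hg | hg <;> obtain ⟨a, b⟩ := Prod.ext_iff.1 hg <;> simp only at a b <;>
        rw [b, a] at this <;> simp [this])
    have : Bijective fun g => g * σ g := Finite.injective_iff_bijective.1 fun g g' e =>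
      (Prod.ext_iff.1 (inj (m g) (m g') (Prod.ext e (by simp [hΦ, h2])))).1
    exact mul_eq_left.1 ((pr2 σ h1).symm.trans (pr _ this))
  obtain ⟨σ, h1, h2⟩ := dg (M r₂ c₂)
  have s1 : σ r₁ = c₁ := (hr r₁).1 ((h2 _).trans e3.symm)
  have s2 : σ r₂ = c₂ := (hr r₂).1 (h2 _)
  have nb : ∀ g, g * σ g ≠ r₂ * c₁ := by
    intro g hg
    have ns : ¬Surjective fun g => g * σ g := fun hs =>
      n1 ((Finite.injective_iff_surjective.2 hs) (by simp [s1, s2, e1]))
    obtain ⟨y, hy⟩ := not_forall.1 ns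
    have y1 : y ≠ r₂ * c₂ := fun e => hy ⟨r₂, by simp [s2, e]⟩
    have y2 : y ≠ r₂ * c₁ := fun e => hy ⟨g, by simp [hg, e]⟩
    have m : ∀ g, (g, g⁻¹ * y) ∈ ({(r₂, c₂), (r₂, c₁)}ᶜ : Set (G × G)) := fun g hg => by
      rcases hg with hg | hg <;> obtain ⟨a, b⟩ := Prod.ext_iff.1 hg <;> simp only at a b
      · exact y1 (by rw [← a, ← b]; group)
      · exact y2 (by rw [← a, ← b]; group)
    obtain ⟨x, hx⟩ := (Finite.injective_iff_surjective (f := fun g => M g (g⁻¹ * y))).1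
      (fun g g' e => (Prod.ext_iff.1 (inj (m g) (m g') (Prod.ext (by simp [hΦ]) e))).1) (M r₂ c₂)
    exact hy ⟨x, by show x * σ x = y; rw [← (hr x).1 (hx.trans (h2 x).symm)]; group⟩
  have m : ∀ g, g ≠ r₂ → (g, σ g) ∈ ({(r₂, c₂), (r₂, c₁)}ᶜ : Set (G × G)) := fun g hg => by
    simp [hg]
  have bj : Bijective (update (fun g => g * σ g) r₂ (r₂ * c₁)) := by
    refine Finite.injective_iff_bijective.1 fun g g' e => ?_
    by_cases a : g = r₂ <;> by_cases b : g' = r₂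
    · rw [a, b]
    · rw [a, update_self, update_of_ne b] at e; exact (nb _ e.symm).elim
    · rw [b, update_self, update_of_ne a] at e; exact (nb _ e).elim
    · rw [update_of_ne a, update_of_ne b] at e
      exact (Prod.ext_iff.1 (inj (m g a) (m g' b) (Prod.ext e (by simp [hΦ, h2])))).1
  have q1 := pr _ bj
  have q2 := pr2 σ h1
  rw [P1] at q1 q2
  rw [← Finset.mul_prod_erase _ _ (Finset.mem_univ r₂)] at q1 q2
  rw [update_self, Finset.prod_congr rfl fun g hg => by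
    rw [update_of_ne (Finset.ne_of_mem_erase hg)]] at q1
  rw [s2, mul_one, ← q1, map_mul, map_mul] at q2
  have q3 := mul_left_cancel (mul_right_cancel q2)
  have t1 : c₂ * c₁⁻¹ ∈ commutator G := by
    rw [← Abelianization.ker_of, MonoidHom.mem_ker, map_mul, map_inv, q3, mul_inv_cancel]
  have t2 : orderOf (⟨_, t1⟩ : commutator G) = 2 := by
    rw [← Subgroup.orderOf_coe]
    refine orderOf_eq_prime ?_ fun e => n2 (mul_inv_eq_one.1 e).symm
    have a : c₂ * c₁⁻¹ = r₂⁻¹ * r₁ := by rw [eq_inv_mul_iff_mul_eq, ← mul_assoc, ← e1]; group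
    have b : c₂ * c₁⁻¹ = r₁⁻¹ * r₂ := by rw [eq_inv_mul_iff_mul_eq, ← mul_assoc, e2]; group
    show (c₂ * c₁⁻¹) ^ 2 = 1
    rw [sq]; nth_rw 1 [a]; rw [b]; group
  exact even_iff_two_dvd.2 (t2 ▸ orderOf_dvd_natCard _)

theorem lift {G H : Type} [Group G] [Group H] [Finite G] (ι : H →* G) (hι : Injective ι)
    (f : G → G) (θ : H → H) (f1 : Bijective f) (f2 : Bijective fun x => x * f x)
    (hθ : ∀ h, f (ι h) = ι (θ h)) {M : H → H → H} (h : NOM M) : ∃ M' : G → G → G, NOM M' := by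
  classical
  have := Finite.of_injective ι hι
  obtain ⟨hr, hc, ⟨r₁, r₂, c₁, c₂, n1, n2, e1, e2, e3, e4, e5⟩, hn⟩ := h
  obtain ⟨k, k1, k2⟩ := f1.1.hasLeftInverse.elim fun k hk => (⟨k, hk, fun y => by
    obtain ⟨x, rfl⟩ := f1.2 y; rw [hk]⟩ : ∃ k : G → G, (∀ x, k (f x) = x) ∧ ∀ y, f (k y) = y)
  have θ1 : Surjective θ := Finite.injective_iff_surjective.1 fun a b e =>
    hι (f1.1 (by rw [hθ, hθ, e]))
  have θ2 : Surjective fun h => h * θ h := Finite.injective_iff_surjective.1 fun a b e =>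
    hι (f2.1 (by simp only [hθ, ← map_mul]; exact congrArg ι e))
  have km : ∀ y, k y ∈ ι.range ↔ y ∈ ι.range := fun y =>
    ⟨fun ⟨a, ha⟩ => ⟨θ a, by rw [← hθ, ha, k2]⟩, fun ⟨a, ha⟩ => by
      obtain ⟨b, rfl⟩ := θ1 a; exact ⟨b, by rw [← ha, ← hθ, k1]⟩⟩
  let j : G → H := invFun ι
  have hj : ∀ a, j (ι a) = a := leftInverse_invFun hι
  let M' : G → G → G := fun g h => if g ∈ ι.range ∧ h ∈ ι.range then ι (M (j g) (j h))
    else g * (k h)⁻¹
  have m1 : ∀ a b, M' (ι a) (ι b) = ι (M a b) := fun a b => by simp [M', hj]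
  have m2 : ∀ g h, ¬(g ∈ ι.range ∧ h ∈ ι.range) → M' g h = g * (k h)⁻¹ := fun g h e => if_neg e
  have ki : Injective k := fun a b e => by rw [← k2 a, e, k2]
  refine ⟨M', fun g => Finite.injective_iff_bijective.1 fun a b e => ?_,
    fun h => Finite.injective_iff_bijective.1 fun a b e => ?_,
    ⟨ι r₁, ι r₂, ι c₁, ι c₂, hι.ne n1, hι.ne n2, by rw [← map_mul, e1, map_mul],
      by rw [← map_mul, e2, map_mul], by rw [m1, m1, e3], by rw [m1, m1, e4], ?_⟩, ?_⟩
  · have x : ∀ a b, g ∈ ι.range ∧ a ∈ ι.range → ¬(g ∈ ι.range ∧ b ∈ ι.range) → M' g a ≠ M' g b := by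
      rintro _ b ⟨⟨g, rfl⟩, a, rfl⟩ h2 e
      rw [m1, m2 _ _ h2] at e
      exact h2 ⟨⟨g, rfl⟩, (km b).1 ⟨(M g a)⁻¹ * g, by rw [map_mul, map_inv, e]; group⟩⟩
    by_cases h1 : g ∈ ι.range ∧ a ∈ ι.range <;> by_cases h2 : g ∈ ι.range ∧ b ∈ ι.range
    · obtain ⟨⟨g, rfl⟩, a, rfl⟩ := h1
      obtain ⟨-, b, rfl⟩ := h2
      rw [m1, m1] at e; rw [(hr g).1 (hι e)]
    · exact (x a b h1 h2 e).elim
    · exact (x b a h2 h1 e.symm).elim
    · rw [m2 _ _ h1, m2 _ _ h2] at e; exact ki (inv_injective (mul_left_cancel e))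
  · have x : ∀ a b, a ∈ ι.range ∧ h ∈ ι.range → ¬(b ∈ ι.range ∧ h ∈ ι.range) → M' a h ≠ M' b h := by
      rintro _ b ⟨⟨a, rfl⟩, h, rfl⟩ h2 e
      rw [m1, m2 _ _ h2] at e
      obtain ⟨c, hc⟩ := (km (ι h)).2 ⟨h, rfl⟩
      exact h2 ⟨⟨M a h * c, by rw [map_mul, e, hc]; group⟩, ⟨h, rfl⟩⟩
    by_cases h1 : a ∈ ι.range ∧ h ∈ ι.range <;> by_cases h2 : b ∈ ι.range ∧ h ∈ ι.range
    · obtain ⟨⟨a, rfl⟩, h, rfl⟩ := h1
      obtain ⟨⟨b, rfl⟩, -⟩ := h2
      rw [m1, m1] at e; rw [(hc h).1 (hι e)]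
    · exact (x a b h1 h2 e).elim
    · exact (x b a h2 h1 e.symm).elim
    · rw [m2 _ _ h1, m2 _ _ h2] at e; exact mul_right_cancel e
  · rw [m1, m1, ← map_mul, ← map_mul, ← Set.image_pair, e5, Set.image_pair]
  · have i2 : Injective (Prod.map ι ι) := hι.prodMap hι
    have : (Set.range fun p : G × G => (p.1 * p.2, M' p.1 p.2)) =
        Prod.map ι ι '' (Set.range fun p : H × H => (p.1 * p.2, M p.1 p.2)) ∪
          (Set.range (Prod.map ι ι))ᶜ := by
      ext ⟨p, s⟩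
      constructor
      · rintro ⟨⟨g, h⟩, e⟩
        by_cases h1 : g ∈ ι.range ∧ h ∈ ι.range
        · obtain ⟨⟨g, rfl⟩, h, rfl⟩ := h1
          exact Or.inl ⟨_, ⟨(g, h), rfl⟩, by rw [← e]; simp [m1]⟩
        · refine Or.inr fun ⟨⟨a, b⟩, e'⟩ => h1 ?_
          rw [← e'] at e
          simp only [m2 _ _ h1] at e
          obtain ⟨u1, u2⟩ := Prod.ext_iff.1 e
          simp only [Prod.map] at u1 u2
          obtain ⟨c, hc⟩ := θ2 (b⁻¹ * a)
          have : k h = ι c := f2.1 (by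
            simp only [k2, hθ, ← map_mul]; rw [show c * θ c = b⁻¹ * a from hc, map_mul, map_inv,
              ← u1, ← u2]; group)
          exact ⟨⟨b * c, by rw [map_mul, ← u2, ← this]; group⟩, (km h).1 ⟨c, this.symm⟩⟩
      · rintro (⟨_, ⟨⟨a, b⟩, rfl⟩, e⟩ | e)
        · exact ⟨(ι a, ι b), by rw [← e]; simp [m1]⟩
        · obtain ⟨x, hx⟩ := f2.2 (s⁻¹ * p)
          simp only at hx
          have : ¬(s * x ∈ ι.range ∧ f x ∈ ι.range) := by
            rintro ⟨⟨a, ha⟩, b, hb⟩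
            obtain ⟨c, hc⟩ := (km (f x)).2 ⟨b, hb⟩
            rw [k1] at hc
            refine e ⟨(a * b, a * c⁻¹), Prod.ext ?_ ?_⟩
            · simp only [Prod.map, map_mul, ha, hb]; rw [mul_assoc, hx]; group
            · simp only [Prod.map, map_mul, map_inv, ha, hc]; group
          exact ⟨(s * x, f x), Prod.ext (by simp only; rw [mul_assoc, hx]; group)
            (by simp only; rw [m2 _ _ this, k1]; group)⟩
    have a1 := Set.ncard_add_ncard_compl (Set.range (Prod.map ι ι))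
    rw [Set.ncard_range_of_injective i2, Nat.card_prod, Nat.card_prod, ← sq, ← sq] at a1
    rw [this, Set.ncard_union_eq (disjoint_compl_right.mono_left (Set.image_subset_range _ _)),
      Set.ncard_image_of_injective _ i2]
    omega

theorem semi {N H : Type} [Group N] [Group H] [Finite N] [Finite H] (φ : H →* MulAut N)
    (hN : CM N) (hH : CM H) {M : H → H → H} (h : NOM M) :
    ∃ M' : N ⋊[φ] H → N ⋊[φ] H → N ⋊[φ] H, NOM M' := by
  obtain ⟨κ, a1, a2⟩ := hN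
  obtain ⟨θ, b1, b2⟩ := hH
  have : Finite (N ⋊[φ] H) := Finite.of_equiv _ SemidirectProduct.equivProd.symm
  refine lift SemidirectProduct.inr SemidirectProduct.inr_injective
    (fun x => ⟨φ x.right⁻¹ (κ x.left * (κ 1)⁻¹), θ x.right⟩) θ
    (Finite.injective_iff_bijective.1 fun x y e => ?_)
    (Finite.injective_iff_bijective.1 fun x y e => ?_) (fun h => by ext <;> simp) h
  · have e2 : x.right = y.right := b1.1 (congrArg SemidirectProduct.right e)
    have e1 := congrArg SemidirectProduct.left e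
    simp only [e2] at e1
    exact SemidirectProduct.ext (a1.1 (mul_right_cancel ((φ _).injective e1))) e2
  · have e1 := congrArg SemidirectProduct.left e
    simp only [SemidirectProduct.mul_left, map_inv, MulAut.apply_inv_self, ← mul_assoc] at e1
    exact SemidirectProduct.ext (a2.1 (mul_right_cancel e1))
      (b2.1 (congrArg SemidirectProduct.right e))

end Pool.Agent.H.MP_66fdf3_co
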